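import Mathlib

/-!
Semigroup part for S15487 (local groups): finite local groups and long words.
-/

set_option autoImplicit false

namespace Pool.Agent.R729.LG

/-- the local group property, in the form used by the frozen statement -/
def LocGrp (S : Type) [Semigroup S] : Prop :=
  ∀ e : S, e * e = e → ∀ x : S, ∃ y : S,
    (e * x * e) * (e * y * e) = e ∧ (e * y * e) * (e * x * e) = e

theorem exists_idem_in {S : Type} [Semigroup S] [Finite S] (T : Set S) (hT : T.Nonempty)
    (hm : ∀ x ∈ T, ∀ y ∈ T, x * y ∈ T) : ∃ f ∈ T, f * f = f := by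
  letI : TopologicalSpace S := ⊥
  haveI : DiscreteTopology S := ⟨rfl⟩
  exact exists_idempotent_in_compact_subsemigroup (fun r => continuous_of_discreteTopology) T hT
    (Set.toFinite T).isCompact hm

section Words

variable {S : Type} [Semigroup S] {α : Type} (φ : List α → S)

theorem prefix_idem [Finite S] (hφ : ∀ u v : List α, u ≠ [] → v ≠ [] → φ (u ++ v) = φ u * φ v)
    (U : List α) (hU : Nat.card S + 1 ≤ U.length) :
    ∃ p u : List α, U = p ++ u ∧ p ≠ [] ∧ u ≠ [] ∧ ∃ f : S, f * f = f ∧ φ p * f = φ p := by
  classical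
  haveI := Fintype.ofFinite S
  obtain ⟨i, j, hij, he⟩ : ∃ i j : Fin (Nat.card S + 1), i < j ∧
      φ (U.take (i + 1)) = φ (U.take (j + 1)) := by
    obtain ⟨i, j, hne, he⟩ := Fintype.exists_ne_map_eq_of_card_lt
      (fun i : Fin (Nat.card S + 1) => φ (U.take (i + 1)))
      (by rw [Fintype.card_fin, Nat.card_eq_fintype_card]; omega)
    rcases lt_or_gt_of_ne hne with h | h
    · exact ⟨i, j, h, he⟩
    · exact ⟨j, i, h, he.symm⟩
  have hij' : (i : ℕ) < (j : ℕ) := hij
  have hj : (j : ℕ) < Nat.card S + 1 := j.2
  have hp : U.take (i + 1) ≠ [] := by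
    intro h
    have := congrArg List.length h
    rw [List.length_take, min_eq_left (by omega), List.length_nil] at this
    omega
  have hz : (U.take (j + 1)).drop (i + 1) ≠ [] := by
    intro h
    have := congrArg List.length h
    rw [List.length_drop, List.length_take, min_eq_left (by omega), List.length_nil] at this
    omega
  have hsplit : U.take (j + 1) = U.take (i + 1) ++ (U.take (j + 1)).drop (i + 1) := by
    have h1 : U.take (i + 1) = (U.take (j + 1)).take (i + 1) := by
      rw [List.take_take, min_eq_left (by omega)]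
    rw [h1, List.take_append_drop]
  have hmul : φ (U.take (i + 1)) * φ ((U.take (j + 1)).drop (i + 1)) = φ (U.take (i + 1)) := by
    rw [← hφ _ _ hp hz, ← hsplit, he]
  obtain ⟨f, hf, hff⟩ := exists_idem_in {s : S | φ (U.take (i + 1)) * s = φ (U.take (i + 1))}
    ⟨_, hmul⟩ (by
      intro x hx y hy
      simp only [Set.mem_ofPred_eq] at hx hy ⊢
      rw [← mul_assoc, hx, hy])
  refine ⟨U.take (i + 1), U.drop (i + 1), (List.take_append_drop _ _).symm, hp, ?_, f, hff, hf⟩
  intro h
  have := congrArg List.length h
  simp at this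
  omega

theorem suffix_idem [Finite S] (hφ : ∀ u v : List α, u ≠ [] → v ≠ [] → φ (u ++ v) = φ u * φ v)
    (U : List α) (hU : Nat.card S + 1 ≤ U.length) :
    ∃ u q : List α, U = u ++ q ∧ u ≠ [] ∧ q ≠ [] ∧ ∃ f : S, f * f = f ∧ f * φ q = φ q := by
  classical
  haveI := Fintype.ofFinite S
  obtain ⟨i, j, hij, he⟩ : ∃ i j : Fin (Nat.card S + 1), i < j ∧
      φ (U.drop (U.length - (i + 1))) = φ (U.drop (U.length - (j + 1))) := by
    obtain ⟨i, j, hne, he⟩ := Fintype.exists_ne_map_eq_of_card_lt
      (fun i : Fin (Nat.card S + 1) => φ (U.drop (U.length - (i + 1))))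
      (by rw [Fintype.card_fin, Nat.card_eq_fintype_card]; omega)
    rcases lt_or_gt_of_ne hne with h | h
    · exact ⟨i, j, h, he⟩
    · exact ⟨j, i, h, he.symm⟩
  have hij' : (i : ℕ) < (j : ℕ) := hij
  have hj : (j : ℕ) < Nat.card S + 1 := j.2
  have hp : U.drop (U.length - (i + 1)) ≠ [] := by
    intro h
    have := congrArg List.length h
    simp at this
    omega
  have hz : (U.drop (U.length - (j + 1))).take (j - i) ≠ [] := by
    intro h
    have := congrArg List.length h
    simp at this
    omega
  have hsplit : U.drop (U.length - (j + 1)) =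
      (U.drop (U.length - (j + 1))).take (j - i) ++ U.drop (U.length - (i + 1)) := by
    have h1 : U.drop (U.length - (i + 1)) = (U.drop (U.length - (j + 1))).drop (j - i) := by
      rw [List.drop_drop]; congr 1; omega
    rw [h1, List.take_append_drop]
  have hmul : φ ((U.drop (U.length - (j + 1))).take (j - i)) * φ (U.drop (U.length - (i + 1)))
      = φ (U.drop (U.length - (i + 1))) := by
    rw [← hφ _ _ hz hp, ← hsplit, he]
  obtain ⟨f, hf, hff⟩ := exists_idem_in
    {s : S | s * φ (U.drop (U.length - (i + 1))) = φ (U.drop (U.length - (i + 1)))}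
    ⟨_, hmul⟩ (by
      intro x hx y hy
      simp only [Set.mem_ofPred_eq] at hx hy ⊢
      rw [mul_assoc, hy, hx])
  refine ⟨U.take (U.length - (i + 1)), U.drop (U.length - (i + 1)),
    (List.take_append_drop _ _).symm, ?_, hp, f, hff, hf⟩
  intro h
  have := congrArg List.length h
  simp at this
  omega

end Words

section Alg

variable {S : Type} [Semigroup S]

/-- If `k = x f y` with `f` idempotent then `k v e ∈ k e (e S e)`. -/
theorem right_transport (hS : LocGrp S) (x f y e v : S) (hf : f * f = f) (he : e * e = e) :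
    ∃ t : S, x * f * y * v = x * f * y * e * t := by
  obtain ⟨n, hn, -⟩ := hS f hf (y * e)
  refine ⟨f * n * f * y * v, ?_⟩
  -- (f*(y*e)*f)*(f*n*f) = f
  have h1 : f * y * e * f * n * f = f := by
    calc f * y * e * f * n * f = f * (y * e) * (f * f) * n * f := by
          rw [hf]; simp only [mul_assoc]
      _ = (f * (y * e) * f) * (f * n * f) := by simp only [mul_assoc]
      _ = f := hn
  calc x * f * y * v = x * (f * y * e * f * n * f) * y * v := by rw [h1]
    _ = x * f * y * e * (f * n * f * y * v) := by simp only [mul_assoc]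

/-- left version -/
theorem left_factor (hS : LocGrp S) (x f e : S) (hf : f * f = f) :
    ∃ a : S, ∀ y : S, x * f * y = a * e * (x * f * y) := by
  obtain ⟨n, -, hn⟩ := hS f hf (e * x)
  -- (f n f) (f (e x) f) = f
  have h1 : f * n * f * e * x * f = f := by
    calc f * n * f * e * x * f = f * n * (f * f) * (e * x) * f := by
          rw [hf]; simp only [mul_assoc]
      _ = (f * n * f) * (f * (e * x) * f) := by simp only [mul_assoc]
      _ = f := hn
  refine ⟨x * f * n * f, fun y => ?_⟩
  calc x * f * y = x * (f * n * f * e * x * f) * y := by rw [h1]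
    _ = x * f * n * f * e * (x * f * y) := by simp only [mul_assoc]

/-- right version -/
theorem right_factor (hS : LocGrp S) (f y e : S) (hf : f * f = f) :
    ∃ b : S, ∀ x : S, x * (f * y) = x * (f * y) * e * b := by
  obtain ⟨n, hn, -⟩ := hS f hf (y * e)
  have h1 : f * y * e * f * n * f = f := by
    calc f * y * e * f * n * f = f * (y * e) * (f * f) * n * f := by
          rw [hf]; simp only [mul_assoc]
      _ = (f * (y * e) * f) * (f * n * f) := by simp only [mul_assoc]
      _ = f := hn
  refine ⟨f * n * f * y, fun x => ?_⟩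
  calc x * (f * y) = x * ((f * y * e * f * n * f) * y) := by rw [h1]
    _ = x * (f * y) * e * (f * n * f * y) := by simp only [mul_assoc]

/-- the local group `e S e` as a type -/
def Loc (e : S) : Type := {s : S // e * s = s ∧ s * e = s}

namespace Loc

variable {e : S}

def mk' (he : e * e = e) (x : S) : Loc e := ⟨e * x * e, by
  constructor
  · rw [← mul_assoc, ← mul_assoc, he]
  · rw [mul_assoc, he]⟩

theorem eq_sandwich (s : Loc e) : e * s.1 * e = s.1 := by rw [s.2.1, s.2.2]

/-- group structure -/
@[reducible] noncomputable def group (hS : LocGrp S) (he : e * e = e) : Group (Loc e) where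
  mul a b := ⟨a.1 * b.1, by rw [← mul_assoc, a.2.1], by rw [mul_assoc, b.2.2]⟩
  one := ⟨e, he, he⟩
  mul_assoc a b c := Subtype.ext (mul_assoc _ _ _)
  one_mul a := Subtype.ext a.2.1
  mul_one a := Subtype.ext a.2.2
  inv a := mk' he (Classical.choose (hS e he a.1))
  inv_mul_cancel a := Subtype.ext (by
    have h := (Classical.choose_spec (hS e he a.1)).2
    exact (congrArg (fun z => (e * Classical.choose (hS e he a.1) * e) * z)
      (eq_sandwich a)).symm.trans h)

end Loc

end Alg

/-- The packaged statement. `ψ w = e φ(w) e` in the group `e S e`. -/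
theorem semi_package {S : Type} [Semigroup S] [Finite S] (hS : LocGrp S) {α : Type}
    (φ : List α → S) (hφ : ∀ u v : List α, u ≠ [] → v ≠ [] → φ (u ++ v) = φ u * φ v) :
    ∃ (N : ℕ) (G : Type) (_ : Group G) (_ : Finite G) (ψ : List α → G), 0 < N ∧
      (∀ s U V : List α, N ≤ U.length → ψ (s ++ U ++ V) = ψ (s ++ U) * (ψ U)⁻¹ * ψ (U ++ V)) ∧
      (∀ U U' r r' t t' : List α, N ≤ U.length → N ≤ U'.length →
        U ++ r = t ++ U' → ψ (U ++ r) = ψ (U ++ r') → U ++ r' = t' ++ U' →
        φ (U ++ r) = φ (U ++ r')) := by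
  obtain ⟨e, -, he⟩ := exists_idem_in (Set.univ : Set S) ⟨φ [], trivial⟩ (fun _ _ _ _ => trivial)
  letI G : Group (Loc e) := Loc.group hS he
  refine ⟨Nat.card S + 1, Loc e, G, ?_, fun w => Loc.mk' he (φ w), Nat.succ_pos _, ?_, ?_⟩
  · exact Subtype.finite
  · intro s U V hU
    by_cases hV : V = []
    · subst hV
      simp
    by_cases hs : s = []
    · subst hs
      simp
    obtain ⟨p, u, rfl, hp, hu, f, hf, hpf⟩ := prefix_idem φ hφ U hU
    have hU0 : p ++ u ≠ [] := by simp [hp]
    obtain ⟨t, ht⟩ := right_transport hS (φ p) f (φ u) e (φ V * e) hf he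
    -- φ(U) φ(V) e = φ(U) e t
    have hUV : φ (p ++ u) * (φ V * e) = φ (p ++ u) * e * t := by
      rw [hφ p u hp hu, ← hpf]; exact ht
    have hUV' : φ (p ++ u) * (φ V * e) = φ (p ++ u) * e * (e * t * e) := by
      have h2 : φ (p ++ u) * (φ V * e) * e = φ (p ++ u) * (φ V * e) := by
        rw [mul_assoc, mul_assoc (φ V), he]
      rw [← h2, hUV]
      calc φ (p ++ u) * e * t * e = φ (p ++ u) * (e * e) * t * e := by rw [he]
        _ = φ (p ++ u) * e * (e * t * e) := by simp only [mul_assoc]
    -- in the group
    have key1 : (Loc.mk' he (φ (p ++ u ++ V)) : Loc e) =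
        Loc.mk' he (φ (p ++ u)) * Loc.mk' he t := by
      apply Subtype.ext
      show e * φ (p ++ u ++ V) * e = (e * φ (p ++ u) * e) * (e * t * e)
      rw [hφ _ V hU0 hV]
      calc e * (φ (p ++ u) * φ V) * e = e * (φ (p ++ u) * (φ V * e)) := by simp only [mul_assoc]
        _ = e * (φ (p ++ u) * e * (e * t * e)) := by rw [hUV']
        _ = e * φ (p ++ u) * (e * e) * t * e := by simp only [mul_assoc]
        _ = (e * φ (p ++ u) * e) * (e * t * e) := by simp only [mul_assoc]
    have key2 : (Loc.mk' he (φ (s ++ (p ++ u) ++ V)) : Loc e) =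
        Loc.mk' he (φ (s ++ (p ++ u))) * Loc.mk' he t := by
      apply Subtype.ext
      show e * φ (s ++ (p ++ u) ++ V) * e = (e * φ (s ++ (p ++ u)) * e) * (e * t * e)
      rw [hφ _ V (by simp [hs]) hV, hφ s (p ++ u) hs hU0]
      calc e * (φ s * φ (p ++ u) * φ V) * e = e * φ s * (φ (p ++ u) * (φ V * e)) := by
            simp only [mul_assoc]
        _ = e * φ s * (φ (p ++ u) * e * (e * t * e)) := by rw [hUV']
        _ = e * φ s * φ (p ++ u) * (e * e) * t * e := by simp only [mul_assoc]
        _ = (e * (φ s * φ (p ++ u)) * e) * (e * t * e) := by simp only [mul_assoc]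
    show Loc.mk' he (φ (s ++ (p ++ u) ++ V)) = Loc.mk' he (φ (s ++ (p ++ u))) *
      (Loc.mk' he (φ (p ++ u)))⁻¹ * Loc.mk' he (φ (p ++ u ++ V))
    rw [key2, key1]
    group
  · intro U U' r r' t t' hU hU' h1 hψ h2
    obtain ⟨p, u, rfl, hp, hu, f, hf, hpf⟩ := prefix_idem φ hφ U hU
    obtain ⟨u', q, rfl, hu', hq, f', hf', hqf⟩ := suffix_idem φ hφ U' hU'
    obtain ⟨a, ha⟩ := left_factor hS (φ p) f e hf
    obtain ⟨b, hb⟩ := right_factor hS f' (φ q) e hf'
    -- every word w = p ++ z (z nonempty) satisfies φ w = a e φ w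
    have hA : ∀ z : List α, z ≠ [] → φ (p ++ z) = a * e * φ (p ++ z) := by
      intro z hz
      rw [hφ p z hp hz, ← hpf]
      exact ha (φ z)
    have hB : ∀ z : List α, z ≠ [] → φ (z ++ q) = φ (z ++ q) * e * b := by
      intro z hz
      rw [hφ z q hz hq, ← hqf]
      exact hb (φ z)
    have hw : ∀ r t : List α, p ++ u ++ r = t ++ (u' ++ q) →
        φ (p ++ u ++ r) = a * (e * φ (p ++ u ++ r) * e) * b := by
      intro r t h
      have e1 : φ (p ++ u ++ r) = a * e * φ (p ++ u ++ r) := by
        rw [List.append_assoc]; exact hA _ (by simp [hu])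
      have e2 : φ (p ++ u ++ r) = φ (p ++ u ++ r) * e * b := by
        rw [h, ← List.append_assoc]; exact hB _ (by simp [hu'])
      calc φ (p ++ u ++ r) = a * e * φ (p ++ u ++ r) := e1
        _ = a * e * (φ (p ++ u ++ r) * e * b) := by rw [← e2]
        _ = a * (e * φ (p ++ u ++ r) * e) * b := by simp only [mul_assoc]
    rw [hw r t h1, hw r' t' h2]
    have := congrArg Subtype.val hψ
    change e * φ (p ++ u ++ r) * e = e * φ (p ++ u ++ r') * e at this
    rw [this]

/-! ### block form -/

/-- product along a list, in the reverse order -/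
def PGs {A G : Type} [Group G] (g : A → A → G) : List A → G
  | [] => 1
  | [_] => 1
  | a :: b :: L => PGs g (b :: L) * g a b

/-- product along a list, in the natural order -/
def NatP {A G : Type} [Group G] (h : A → A → G) : List A → G
  | [] => 1
  | [_] => 1
  | a :: b :: L => h a b * NatP h (b :: L)

theorem PGs_inv {A G : Type} [Group G] (h : A → A → G) (L : List A) :
    PGs (fun a b => (h a b)⁻¹) L = (NatP h L)⁻¹ := by
  induction L with
  | nil => simp [PGs, NatP]
  | cons a L ih =>
    cases L with
    | nil => simp [PGs, NatP]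
    | cons b L =>
      rw [PGs, NatP, ih, mul_inv_rev]

section Blocks

variable {n N : ℕ}

/-- content of a block -/
def cont (b : Fin N → Option (Fin n)) : List (Fin n) := (List.ofFn b).reduceOption

/-- full blocks -/
def Full (b : Fin N → Option (Fin n)) : Prop := ∀ i, b i ≠ none

theorem ofFn_full {b : Fin N → Option (Fin n)} (hb : Full b) :
    List.ofFn b = (cont b).map some := by
  have : ∀ l : List (Option (Fin n)), (∀ x ∈ l, x ≠ none) → l = l.reduceOption.map some := by
    intro l
    induction l with
    | nil => intro _; rfl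
    | cons a l ih =>
      intro h
      cases a with
      | none => exact absurd rfl (h none List.mem_cons_self)
      | some a =>
        rw [List.reduceOption_cons_of_some, List.map_cons,
          ← ih (fun x hx => h x (List.mem_cons_of_mem _ hx))]
  apply this
  intro x hx
  rw [List.mem_ofFn] at hx
  obtain ⟨i, rfl⟩ := hx
  exact hb i

theorem cont_length {b : Fin N → Option (Fin n)} (hb : Full b) : (cont b).length = N := by
  have := congrArg List.length (ofFn_full hb)
  simp at this
  exact this.symm

theorem red_flatMap (bs : List (Fin N → Option (Fin n))) :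
    (bs.flatMap List.ofFn).reduceOption = bs.flatMap cont := by
  induction bs with
  | nil => rfl
  | cons b bs ih => rw [List.flatMap_cons, List.flatMap_cons, List.reduceOption_append, ih]; rfl

theorem red_pad (w : List (Fin n)) (k : ℕ) :
    (w.map some ++ List.replicate k none).reduceOption = w := by
  rw [List.reduceOption_append]
  have h1 : (List.replicate k (none : Option (Fin n))).reduceOption = [] := by
    induction k with
    | zero => rfl
    | succ k ih => rw [List.replicate_succ, List.reduceOption_cons_of_none, ih]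
  have h2 : ∀ w : List (Fin n), (w.map some).reduceOption = w := by
    intro w
    induction w with
    | nil => rfl
    | cons a w ih => rw [List.map_cons, List.reduceOption_cons_of_some, ih]
  rw [h1, h2, List.append_nil]

theorem length_flatMap_ofFn (bs : List (Fin N → Option (Fin n))) :
    (bs.flatMap List.ofFn).length = N * bs.length := by
  induction bs with
  | nil => simp
  | cons b bs ih => rw [List.flatMap_cons, List.length_append, ih, List.length_ofFn,
      List.length_cons]; ring

theorem block_struct (hN : 0 < N) (w : List (Fin n)) (bs : List (Fin N → Option (Fin n)))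
    (h : bs.flatMap List.ofFn = w.map some ++ List.replicate (N - w.length % N) none) :
    ∃ (us : List (Fin N → Option (Fin n))) (V : Fin N → Option (Fin n)),
      bs = us ++ [V] ∧ (∀ u ∈ us, Full u) ∧ ¬ Full V ∧ w = us.flatMap cont ++ cont V := by
  have hk1 : 1 ≤ N - w.length % N := by have := Nat.mod_lt w.length hN; omega
  have hk2 : N - w.length % N ≤ N := Nat.sub_le _ _
  set k := N - w.length % N with hk
  have hw : w = bs.flatMap cont := by rw [← red_flatMap, h, red_pad]
  have hlen := congrArg List.length h
  rw [length_flatMap_ofFn, List.length_append, List.length_map, List.length_replicate] at hlen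
  rcases List.eq_nil_or_concat bs with rfl | ⟨us, V, rfl⟩
  · simp at hlen; omega
  rw [List.concat_eq_append] at *
  refine ⟨us, V, rfl, ?_, ?_, ?_⟩
  · -- us full
    rw [List.flatMap_append] at h
    have hl : (us.flatMap List.ofFn).length ≤ w.length := by
      rw [length_flatMap_ofFn]
      rw [List.length_append, List.length_singleton] at hlen
      have : N * (us.length + 1) = N * us.length + N := by ring
      omega
    have h3 : us.flatMap List.ofFn = (w.map some).take (us.flatMap List.ofFn).length := by
      have h4 := congrArg (List.take (us.flatMap List.ofFn).length) h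
      rw [List.take_left', List.take_append_of_le_length (by rwa [List.length_map])] at h4
      · exact h4
      · rfl
    intro u hu i hi
    have h5 : (none : Option (Fin n)) ∈ us.flatMap List.ofFn := by
      rw [List.mem_flatMap]
      exact ⟨u, hu, by rw [List.mem_ofFn]; exact ⟨i, hi⟩⟩
    rw [h3] at h5
    have h6 := List.mem_of_mem_take h5
    simp at h6
  · -- V not full
    intro hV
    rw [List.flatMap_append] at h
    have h5 : (w.map some ++ List.replicate k none).getLast? = some none := by
      rw [List.getLast?_append, List.getLast?_replicate]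
      rw [if_neg (by omega)]
      rfl
    rw [← h] at h5
    have h6 : [V].flatMap List.ofFn = (cont V).map some := by
      rw [List.flatMap_cons, List.flatMap_nil, List.append_nil, ofFn_full hV]
    rw [h6, List.getLast?_append] at h5
    have h7 : ((cont V).map some).getLast? ≠ none := by
      rw [Ne, List.getLast?_eq_none_iff]
      intro h8
      have := congrArg List.length h8
      rw [List.length_map, cont_length hV, List.length_nil] at this
      omega
    obtain ⟨z, hz⟩ := Option.ne_none_iff_exists'.1 h7
    rw [hz] at h5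
    have h8 : z ∈ (cont V).map some := List.mem_of_getLast? hz
    simp at h5
    subst h5
    simp at h8
  · rw [hw, List.flatMap_append, List.flatMap_cons, List.flatMap_nil, List.append_nil]

end Blocks

open Classical in
/-- the transition function -/
noncomputable def hh {n N : ℕ} {H : Type} [Group H] (ψ : List (Fin n) → H)
    (a b : Fin N → Option (Fin n)) :
    H × ((Fin N → Option (Fin n)) → Multiplicative (ZMod 2)) ×
      (((Fin N → Option (Fin n)) × (Fin N → Option (Fin n))) → Multiplicative (ZMod 2)) :=
  (if Full a ∧ Full b then (ψ (cont a))⁻¹ * ψ (cont a ++ cont b)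
    else if a = (fun _ => none) ∧ Full b then ψ (cont b) else 1,
   if a = (fun _ => none) ∧ b ≠ (fun _ => none) then
      Pi.mulSingle b (Multiplicative.ofAdd 1) else 1,
   if Full a ∧ ¬ Full b then Pi.mulSingle (a, b) (Multiplicative.ofAdd 1) else 1)

section HH

variable {n N : ℕ} {H : Type} [Group H] (ψ : List (Fin n) → H)

theorem star_not_full (hN : 0 < N) : ¬ Full (fun _ => none : Fin N → Option (Fin n)) :=
  fun h => h ⟨0, hN⟩ rfl

theorem hh_nonfull_star (hN : 0 < N) (V : Fin N → Option (Fin n)) (hV : ¬ Full V) :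
    hh ψ V (fun _ => none) = 1 := by
  have h0 := star_not_full (n := n) hN
  unfold hh
  rw [if_neg (fun h => hV h.1), if_neg (fun h => h0 h.2), if_neg (fun h => h.2 rfl),
    if_neg (fun h => hV h.1)]
  rfl

open Classical in
theorem natP_chain (hN : 0 < N)
    (hψ : ∀ s U V : List (Fin n), N ≤ U.length →
      ψ (s ++ U ++ V) = ψ (s ++ U) * (ψ U)⁻¹ * ψ (U ++ V))
    (V : Fin N → Option (Fin n)) (hV : ¬ Full V)
    (us : List (Fin N → Option (Fin n))) :
    ∀ u : Fin N → Option (Fin n), Full u → (∀ v ∈ us, Full v) →
    NatP (hh ψ) (u :: us ++ [V] ++ [fun _ => none]) =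
      ((ψ (cont u))⁻¹ * ψ (cont u ++ us.flatMap cont), 1,
        Pi.mulSingle ((u :: us).getLast (List.cons_ne_nil _ _), V) (Multiplicative.ofAdd 1)) := by
  have h0 := star_not_full (n := n) hN
  induction us with
  | nil =>
    intro u hu _
    have hus : u ≠ (fun _ => none) := fun h => h0 (h ▸ hu)
    show hh ψ u V * (hh ψ V (fun _ => none) * 1) = _
    rw [hh_nonfull_star ψ hN V hV]
    unfold hh
    rw [if_neg (fun h => hV h.2), if_neg (fun h => hus h.1), if_neg (fun h => hus h.1),
      if_pos ⟨hu, hV⟩]
    simp
  | cons v us ih =>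
    intro u hu hvs
    have hv : Full v := hvs v List.mem_cons_self
    have hus : u ≠ (fun _ => none) := fun h => h0 (h ▸ hu)
    have ih' := ih v hv (fun w hw => hvs w (List.mem_cons_of_mem _ hw))
    show hh ψ u v * NatP (hh ψ) (v :: us ++ [V] ++ [fun _ => none]) = _
    rw [ih']
    unfold hh
    rw [if_pos ⟨hu, hv⟩, if_neg (fun h => hus h.1), if_neg (fun h => h.2 hv)]
    have h1 := hψ (cont u) (cont v) (us.flatMap cont) (by rw [cont_length hv])
    refine Prod.ext ?_ (Prod.ext ?_ ?_)
    · show (ψ (cont u))⁻¹ * ψ (cont u ++ cont v) * ((ψ (cont v))⁻¹ * ψ (cont v ++ us.flatMap cont))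
        = (ψ (cont u))⁻¹ * ψ (cont u ++ (v :: us).flatMap cont)
      rw [List.flatMap_cons, ← List.append_assoc, h1]
      group
    · show (1 : (Fin N → Option (Fin n)) → Multiplicative (ZMod 2)) * 1 = 1
      simp
    · show (1 : ((Fin N → Option (Fin n)) × (Fin N → Option (Fin n))) → Multiplicative (ZMod 2)) * _ = _
      rw [one_mul, List.getLast_cons (List.cons_ne_nil v us)]

end HH

theorem mulSingle_inj {ι : Type} [DecidableEq ι] {a b : ι}
    (h : (Pi.mulSingle a (Multiplicative.ofAdd 1) : ι → Multiplicative (ZMod 2)) =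
      Pi.mulSingle b (Multiplicative.ofAdd 1)) : a = b := by
  by_contra hne
  have h1 := congrFun h a
  rw [Pi.mulSingle_eq_same, Pi.mulSingle_eq_of_ne hne] at h1
  revert h1
  decide

theorem sem (n : ℕ) (S : Type) [Semigroup S] [Finite S]
    (hS : ∀ e : S, e * e = e → ∀ x : S, ∃ y : S,
      (e * x * e) * (e * y * e) = e ∧ (e * y * e) * (e * x * e) = e)
    (phi : List (Fin n) → S)
    (hphi : ∀ u v : List (Fin n), u ≠ [] → v ≠ [] → phi (u ++ v) = phi u * phi v) :
    ∃ (N : ℕ) (_ : 0 < N) (G : Type) (_ : Group G) (_ : Finite G)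
      (g : (Fin N → Option (Fin n)) → (Fin N → Option (Fin n)) → G),
      ∀ (w w' : List (Fin n)), w ≠ [] → w' ≠ [] → w.length % N = w'.length % N →
        ∀ (bs bs' : List (Fin N → Option (Fin n))),
          bs.flatMap List.ofFn = w.map some ++ List.replicate (N - w.length % N) none →
          bs'.flatMap List.ofFn = w'.map some ++ List.replicate (N - w'.length % N) none →
          PGs g ((fun _ => none) :: bs ++ [fun _ => none]) =
            PGs g ((fun _ => none) :: bs' ++ [fun _ => none]) →
          phi w = phi w' := by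
  classical
  obtain ⟨N, H, instH, finH, ψ, hN, hψ, hdet⟩ := semi_package hS phi hphi
  have h0 := star_not_full (n := n) hN
  refine ⟨N, hN, H × ((Fin N → Option (Fin n)) → Multiplicative (ZMod 2)) ×
      (((Fin N → Option (Fin n)) × (Fin N → Option (Fin n))) → Multiplicative (ZMod 2)),
    inferInstance, inferInstance, fun a b => (hh ψ a b)⁻¹, ?_⟩
  intro w w' hw hw' _ bs bs' hbs hbs' heq
  rw [PGs_inv, PGs_inv, inv_inj] at heq
  obtain ⟨us, V, rfl, hus, hV, hwe⟩ := block_struct hN w bs hbs
  obtain ⟨us', V', rfl, hus', hV', hwe'⟩ := block_struct hN w' bs' hbs'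
  -- value of the product
  have hval0 : ∀ V : Fin N → Option (Fin n), ¬ Full V → V ≠ (fun _ => none) →
      NatP (hh ψ) ((fun _ => none) :: ([] ++ [V]) ++ [fun _ => none]) =
        (1, Pi.mulSingle V (Multiplicative.ofAdd 1), 1) := by
    intro V hV hVs
    show hh ψ (fun _ => none) V * (hh ψ V (fun _ => none) * 1) = _
    rw [hh_nonfull_star ψ hN V hV]
    unfold hh
    rw [if_neg (fun h => h0 h.1), if_neg (fun h => hV h.2), if_pos ⟨rfl, hVs⟩,
      if_neg (fun h => h0 h.1)]
    simp
  have hval1 : ∀ (u : Fin N → Option (Fin n)) (us : List (Fin N → Option (Fin n)))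
      (V : Fin N → Option (Fin n)), Full u → (∀ v ∈ us, Full v) → ¬ Full V →
      NatP (hh ψ) ((fun _ => none) :: ((u :: us) ++ [V]) ++ [fun _ => none]) =
        (ψ (cont u ++ us.flatMap cont), Pi.mulSingle u (Multiplicative.ofAdd 1),
          Pi.mulSingle ((u :: us).getLast (List.cons_ne_nil _ _), V)
            (Multiplicative.ofAdd 1)) := by
    intro u us V hu hus hV
    have hus0 : u ≠ (fun _ => none) := fun h => h0 (h ▸ hu)
    show hh ψ (fun _ => none) u * NatP (hh ψ) (u :: us ++ [V] ++ [fun _ => none]) = _
    rw [natP_chain ψ hN hψ V hV us u hu hus]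
    unfold hh
    rw [if_neg (fun h => h0 h.1), if_pos ⟨rfl, hu⟩, if_pos ⟨rfl, hus0⟩, if_neg (fun h => h0 h.1)]
    refine Prod.ext ?_ (Prod.ext ?_ ?_)
    · show ψ (cont u) * ((ψ (cont u))⁻¹ * ψ (cont u ++ us.flatMap cont)) = _
      rw [mul_inv_cancel_left]
    · show _ * (1 : (Fin N → Option (Fin n)) → Multiplicative (ZMod 2)) = _
      rw [mul_one]
    · show (1 : ((Fin N → Option (Fin n)) × (Fin N → Option (Fin n))) → Multiplicative (ZMod 2)) * _ = _
      rw [one_mul]
  have hcV : ∀ V : Fin N → Option (Fin n), cont V ≠ [] → V ≠ (fun _ => none) := by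
    rintro V h rfl
    apply h
    unfold cont
    have := red_pad (n := n) [] N
    rw [List.map_nil, List.nil_append] at this
    rw [List.ofFn_const]
    exact this
  cases us with
  | nil =>
    have hVne : V ≠ (fun _ => none) := by
      apply hcV
      rw [List.flatMap_nil, List.nil_append] at hwe
      rw [← hwe]; exact hw
    cases us' with
    | nil =>
      have hVne' : V' ≠ (fun _ => none) := by
        apply hcV
        rw [List.flatMap_nil, List.nil_append] at hwe'
        rw [← hwe']; exact hw'
      rw [hval0 V hV hVne, hval0 V' hV' hVne'] at heq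
      have h1 : V = V' := mulSingle_inj (congrArg (fun z => z.2.1) heq)
      rw [hwe, hwe', h1]
    | cons u' us' =>
      exfalso
      rw [hval0 V hV hVne, hval1 u' us' V' (hus' u' List.mem_cons_self)
        (fun v hv => hus' v (List.mem_cons_of_mem _ hv)) hV'] at heq
      have h1 : V = u' := mulSingle_inj (congrArg (fun z => z.2.1) heq)
      exact hV (h1 ▸ hus' u' List.mem_cons_self)
  | cons u us =>
    have hu := hus u List.mem_cons_self
    have hus2 := fun v hv => hus v (List.mem_cons_of_mem _ hv)
    cases us' with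
    | nil =>
      exfalso
      have hVne' : V' ≠ (fun _ => none) := by
        apply hcV
        rw [List.flatMap_nil, List.nil_append] at hwe'
        rw [← hwe']; exact hw'
      rw [hval0 V' hV' hVne', hval1 u us V hu hus2 hV] at heq
      have h1 : u = V' := mulSingle_inj (congrArg (fun z => z.2.1) heq)
      exact hV' (h1 ▸ hu)
    | cons u' us' =>
      have hu' := hus' u' List.mem_cons_self
      have hus2' := fun v hv => hus' v (List.mem_cons_of_mem _ hv)
      rw [hval1 u us V hu hus2 hV, hval1 u' us' V' hu' hus2' hV'] at heq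
      have h1 : u = u' := mulSingle_inj (congrArg (fun z => z.2.1) heq)
      have h2 := mulSingle_inj (congrArg (fun z => z.2.2) heq)
      have h3 : (u :: us).getLast (List.cons_ne_nil _ _) =
        (u' :: us').getLast (List.cons_ne_nil _ _) := congrArg Prod.fst h2
      have h4 : V = V' := congrArg Prod.snd h2
      have h5 : ψ (cont u ++ us.flatMap cont) = ψ (cont u' ++ us'.flatMap cont) :=
        congrArg Prod.fst heq
      subst h1
      subst h4
      -- suffix form
      have hsuf : ∀ us : List (Fin N → Option (Fin n)), ∃ t,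
          cont u ++ us.flatMap cont =
            t ++ cont ((u :: us).getLast (List.cons_ne_nil _ _)) := by
        intro us
        refine ⟨((u :: us).dropLast).flatMap cont, ?_⟩
        have h6 : (u :: us) = (u :: us).dropLast ++ [(u :: us).getLast (List.cons_ne_nil _ _)] :=
          (List.dropLast_append_getLast _).symm
        have h7 := congrArg (List.flatMap cont) h6
        rw [List.flatMap_append, List.flatMap_cons, List.flatMap_cons, List.flatMap_nil,
          List.append_nil] at h7
        exact h7
      obtain ⟨t, ht⟩ := hsuf us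
      obtain ⟨t', ht'⟩ := hsuf us'
      rw [← h3] at ht'
      have hlast : Full ((u :: us).getLast (List.cons_ne_nil _ _)) :=
        hus _ (List.getLast_mem _)
      have h8 := hdet (cont u) (cont ((u :: us).getLast (List.cons_ne_nil _ _)))
        (us.flatMap cont) (us'.flatMap cont) t t' (by rw [cont_length hu])
        (by rw [cont_length hlast]) ht h5 ht'
      have hwa : w = (cont u ++ us.flatMap cont) ++ cont V := by
        rw [hwe, List.flatMap_cons]
      have hwa' : w' = (cont u ++ us'.flatMap cont) ++ cont V := by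
        rw [hwe', List.flatMap_cons]
      have hne1 : ∀ l, cont u ++ l ≠ [] := by
        intro l h
        have := congrArg List.length h
        rw [List.length_append, cont_length hu, List.length_nil] at this
        omega
      by_cases hc : cont V = []
      · rw [hwa, hwa', hc, List.append_nil, List.append_nil, h8]
      · rw [hwa, hwa', hphi _ _ (hne1 _) hc, hphi _ _ (hne1 _) hc, h8]

/-! ### W-closure -/

section Closure

variable (W : (k : ℕ) → Set (Set (List (Fin k))))

/-- closure of the family under finite Boolean combinations: a language of nonempty words whose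
membership is determined by finitely many members of the family is in the family. -/
theorem closure_of_finite (hE : ∀ k, (∅ : Set (List (Fin k))) ∈ W k)
    (hC : ∀ k, ∀ L ∈ W k, {w : List (Fin k) | w ≠ [] ∧ w ∉ L} ∈ W k)
    (hU : ∀ k, ∀ L ∈ W k, ∀ K ∈ W k, L ∪ K ∈ W k)
    (k : ℕ) (ι : Type) [Finite ι] (F : ι → Set (List (Fin k))) (hF : ∀ i, F i ∈ W k)
    (L : Set (List (Fin k))) (hL : ∀ w ∈ L, w ≠ [])
    (hdet : ∀ x y : List (Fin k), x ≠ [] → y ≠ [] → (∀ i, x ∈ F i ↔ y ∈ F i) → (x ∈ L ↔ y ∈ L)) :
    L ∈ W k := by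
  classical
  haveI := Fintype.ofFinite ι
  -- finite unions
  have hfin : ∀ (β : Type) (s : Finset β) (H : β → Set (List (Fin k))),
      (∀ b ∈ s, H b ∈ W k) → {w : List (Fin k) | ∃ b ∈ s, w ∈ H b} ∈ W k := by
    intro β s H hH
    induction s using Finset.induction_on with
    | empty => convert hE k using 1; ext w; simp
    | insert a s ha ih =>
      have h1 := hU k _ (hH a (Finset.mem_insert_self a s)) _
        (ih (fun b hb => hH b (Finset.mem_insert_of_mem hb)))
      convert h1 using 1
      ext w
      simp [Finset.mem_insert]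
  -- for a vector of truth values
  have hvec : ∀ v : ι → Prop, {w : List (Fin k) | w ≠ [] ∧ ∀ i, (w ∈ F i ↔ v i)} ∈ W k := by
    intro v
    -- complement of a union
    have h1 : {w : List (Fin k) | ∃ i ∈ (Finset.univ : Finset ι),
        w ∈ (if v i then {w : List (Fin k) | w ≠ [] ∧ w ∉ F i} else F i)} ∈ W k := by
      apply hfin
      intro i _
      split_ifs
      · exact hC k _ (hF i)
      · exact hF i
    have h2 := hC k _ h1
    convert h2 using 1
    ext w
    simp only [Set.mem_ofPred_eq]
    constructor
    · rintro ⟨hw, h⟩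
      refine ⟨hw, ?_⟩
      rintro ⟨i, -, hi⟩
      by_cases hv : v i
      · rw [if_pos hv] at hi
        exact hi.2 ((h i).2 hv)
      · rw [if_neg hv] at hi
        exact hv ((h i).1 hi)
    · rintro ⟨hw, h⟩
      refine ⟨hw, fun i => ?_⟩
      by_contra hcon
      apply h
      refine ⟨i, Finset.mem_univ _, ?_⟩
      by_cases hv : v i
      · rw [if_pos hv]
        refine ⟨hw, fun hwi => hcon ⟨fun _ => hv, fun _ => hwi⟩⟩
      · rw [if_neg hv]
        by_contra hwi
        exact hcon ⟨fun h => absurd h hwi, fun h => absurd h hv⟩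
  have h3 := hfin (ι → Prop)
    ((Finset.univ : Finset (ι → Prop)).filter
      (fun v => ∃ w ∈ L, ∀ i, (w ∈ F i ↔ v i)))
    (fun v => {w : List (Fin k) | w ≠ [] ∧ ∀ i, (w ∈ F i ↔ v i)}) (fun v _ => hvec v)
  convert h3 using 1
  ext w
  simp only [Set.mem_ofPred_eq, Finset.mem_filter, Finset.mem_univ, true_and]
  constructor
  · intro hw
    exact ⟨fun i => w ∈ F i, ⟨w, hw, fun i => Iff.rfl⟩, hL w hw, fun i => Iff.rfl⟩
  · rintro ⟨v, ⟨w', hw', h1⟩, hne, h2⟩
    exact (hdet w w' hne (hL w' hw') (fun i => (h2 i).trans (h1 i).symm)).2 hw'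

/-- the form requested by helper544 -/
theorem closure (h0 : ∀ k, (∅ : Set (List (Fin k))) ∈ W k)
    (hc : ∀ k, ∀ L ∈ W k, {w : List (Fin k) | w ≠ [] ∧ w ∉ L} ∈ W k)
    (hu : ∀ k, ∀ L ∈ W k, ∀ K ∈ W k, L ∪ K ∈ W k)
    (k : ℕ) (F : Set (Set (List (Fin k)))) (hF : F.Finite) (hFW : ∀ L ∈ F, L ∈ W k)
    (L : Set (List (Fin k))) (hL : ∀ w ∈ L, w ≠ [])
    (hdet : ∀ w w' : List (Fin k), w ≠ [] → w' ≠ [] → (∀ K ∈ F, w ∈ K ↔ w' ∈ K) →
      w ∈ L → w' ∈ L) : L ∈ W k := by
  haveI : Finite F := hF
  refine closure_of_finite W h0 hc hu k F (fun K => K.1) (fun K => hFW K.1 K.2) L hL ?_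
  intro x y hx hy h
  exact ⟨hdet x y hx hy (fun K hK => h ⟨K, hK⟩),
    hdet y x hy hx (fun K hK => (h ⟨K, hK⟩).symm)⟩

end Closure

end Pool.Agent.R729.LG
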